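import Pool.Agent.TH612.GS.Stm3

set_option autoImplicit false

/-! The twisted integrals of the fixed block with a small twist, by a contour shift. -/

namespace Pool.Agent.TH914.GF

open Complex Filter Topology MeasureTheory Set
open Pool.Agent.TH612.CF Pool.Agent.TH612.GS
open Pool.Agent.W182.KO hiding ee SS_summable

noncomputable section

variable {k : ℕ}

/-- the function whose contour is shifted -/
def Fm (α : Fin k → ℝ) (m : ℕ) (s : ℂ) : ℂ :=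
  (∏ j, riemannZeta (s + I * (α j : ℂ))) * (m : ℂ) ^ (s - 1 / 2)

lemma Fm_half (α : Fin k → ℝ) (m : ℕ) (t : ℝ) :
    Fm α m (((1 / 2 : ℝ) : ℂ) + t * I) = AA α t * (m : ℂ) ^ (I * (t : ℂ)) := by
  unfold Fm AA z
  congr 1
  · refine Finset.prod_congr rfl fun j _ => ?_
    congr 1
    push_cast
    ring
  · congr 1
    push_cast
    ring

lemma Fm_right (α : Fin k → ℝ) (m : ℕ) (η t : ℝ) :
    Fm α m (((1 + η : ℝ) : ℂ) + t * I) =
      (∏ j, riemannZeta (1 + η + I * (t + α j))) * (m : ℂ) ^ (1 / 2 + η + I * t : ℂ) := by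
  unfold Fm
  congr 1
  · refine Finset.prod_congr rfl fun j _ => ?_
    congr 1
    push_cast
    ring
  · congr 1
    push_cast
    ring

lemma Fm_norm (α : Fin k → ℝ) {m : ℕ} (hm : 1 ≤ m) (x h : ℝ) :
    ‖Fm α m ((x : ℂ) + h * I)‖ =
      (∏ j, ‖riemannZeta (x + I * ((h + α j : ℝ) : ℂ))‖) * (m : ℝ) ^ (x - 1 / 2) := by
  unfold Fm
  rw [norm_mul, norm_prod, Complex.norm_natCast_cpow_of_pos (by omega)]
  congr 1
  · refine Finset.prod_congr rfl fun j _ => ?_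
    congr 2
    push_cast
    ring
  · congr 1
    simp

lemma Fm_diff (α : Fin k → ℝ) {m : ℕ} (hm : 1 ≤ m) {s : ℂ} (hs : ∀ j, 0 < s.im + α j) :
    DifferentiableAt ℂ (Fm α m) s := by
  unfold Fm
  have hm0 : (m : ℂ) ≠ 0 := by exact_mod_cast (by omega : m ≠ 0)
  refine DifferentiableAt.mul ?_ ?_
  · refine DifferentiableAt.fun_finsetProd fun j _ => ?_
    have h1 : DifferentiableAt ℂ riemannZeta (s + I * (α j : ℂ)) := by
      refine differentiableAt_riemannZeta ?_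
      intro h
      have := congrArg Complex.im h
      simp at this
      linarith [hs j]
    exact h1.comp s (by fun_prop)
  · exact DifferentiableAt.const_cpow (by fun_prop) (Or.inl hm0)

lemma shift (α : Fin k → ℝ) {m : ℕ} (hm : 1 ≤ m) {η a S B : ℝ} (hη : 0 < η) (haS : a ≤ S)
    (ha : ∀ j, 0 < a + α j)
    (hB : ∀ x h : ℝ, 1 / 2 ≤ x → x ≤ 1 + η → (h = a ∨ h = S) →
      ‖Fm α m ((x : ℂ) + h * I)‖ ≤ B) :
    ‖(∫ t in a..S, Fm α m (((1 / 2 : ℝ) : ℂ) + t * I)) -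
      ∫ t in a..S, Fm α m (((1 + η : ℝ) : ℂ) + t * I)‖ ≤ 2 * (1 / 2 + η) * B := by
  have H := Complex.integral_boundary_rect_eq_zero_of_differentiableOn (Fm α m)
    (⟨1 / 2, a⟩ : ℂ) (⟨1 + η, S⟩ : ℂ) (by
      intro s hs
      refine (Fm_diff α hm ?_).differentiableWithinAt
      intro j
      have h2 : s.im ∈ Set.uIcc a S := hs.2
      rw [uIcc_of_le haS] at h2
      linarith [h2.1, ha j])
  simp only [smul_eq_mul] at H
  have hx : ∀ h : ℝ, (h = a ∨ h = S) →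
      ‖∫ x in (1 / 2 : ℝ)..(1 + η), Fm α m ((x : ℂ) + (h : ℂ) * I)‖ ≤ B * (1 / 2 + η) := by
    intro h hh
    have h1 := intervalIntegral.norm_integral_le_of_norm_le_const (a := (1 / 2 : ℝ)) (b := 1 + η)
      (f := fun x : ℝ => Fm α m ((x : ℂ) + (h : ℂ) * I)) (C := B) (fun x hx => by
        rw [uIoc_of_le (by linarith)] at hx
        exact hB x h (by linarith [hx.1]) hx.2 hh)
    have h2 : |1 + η - 1 / 2| = 1 / 2 + η := by
      rw [abs_of_nonneg (by linarith)]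
      ring
    rw [h2] at h1
    exact h1
  have h1 := hx a (Or.inl rfl)
  have h2 := hx S (Or.inr rfl)
  generalize (∫ x in (1 / 2 : ℝ)..(1 + η), Fm α m ((x : ℂ) + (a : ℂ) * I)) = X1 at H h1
  generalize (∫ x in (1 / 2 : ℝ)..(1 + η), Fm α m ((x : ℂ) + (S : ℂ) * I)) = X2 at H h2
  generalize (∫ t in a..S, Fm α m (((1 / 2 : ℝ) : ℂ) + t * I)) = P at H ⊢
  generalize (∫ t in a..S, Fm α m (((1 + η : ℝ) : ℂ) + t * I)) = Q at H ⊢
  have h3 : I * (P - Q) = X1 - X2 := by linear_combination -H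
  have h4 : ‖P - Q‖ = ‖X1 - X2‖ := by
    rw [← h3, norm_mul, Complex.norm_I, one_mul]
  rw [h4]
  calc ‖X1 - X2‖ ≤ ‖X1‖ + ‖X2‖ := norm_sub_le _ _
    _ ≤ 2 * (1 / 2 + η) * B := by linarith

/-- products of at most four factors -/
lemma prod_le {f : Fin k → ℝ} {B : ℝ} (hk : k ≤ 4) (hf : ∀ j, 0 ≤ f j) (hB : 1 ≤ B)
    (h : ∀ j, f j ≤ B) : ∏ j, f j ≤ B ^ 4 := by
  calc ∏ j, f j ≤ ∏ _j : Fin k, B := Finset.prod_le_prod (fun j _ => hf j) (fun j _ => h j)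
    _ = B ^ k := by simp
    _ ≤ B ^ 4 := pow_le_pow_right₀ hB hk

/-- the bound on a horizontal side -/
lemma side (α : Fin k → ℝ) (hk : k ≤ 4) {m : ℕ} (hm : 1 ≤ m) {T C p q x h : ℝ} (hT : 1 ≤ T)
    (hC : 0 ≤ C) (hp : 0 ≤ p) (hp4 : 4 * p ≤ 1) (hq : 0 ≤ q) (hmT : (m : ℝ) ≤ T ^ (7 / 8 : ℝ))
    (hpq : 4 * p + 7 / 8 * q ≤ 9 / 10) (hxq : x - 1 / 2 ≤ q)
    (hz : ∀ j, ‖riemannZeta (x + I * ((h + α j : ℝ) : ℂ))‖ ≤ C * (h + α j) ^ p)
    (hh : ∀ j, 0 ≤ h + α j ∧ h + α j ≤ 2 * T) :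
    ‖Fm α m ((x : ℂ) + h * I)‖ ≤ 2 * (1 + C) ^ 4 * T ^ (9 / 10 : ℝ) := by
  rw [Fm_norm α hm]
  have hT0 : 0 < T := by linarith
  have h2T : 1 ≤ (2 * T) ^ p := Real.one_le_rpow (by linarith) hp
  have h1 : ∏ j, ‖riemannZeta (x + I * ((h + α j : ℝ) : ℂ))‖ ≤ ((1 + C) * (2 * T) ^ p) ^ 4 := by
    refine prod_le hk (fun j => norm_nonneg _) ?_ fun j => ?_
    · nlinarith
    · calc ‖riemannZeta (x + I * ((h + α j : ℝ) : ℂ))‖ ≤ C * (h + α j) ^ p := hz j
        _ ≤ C * (2 * T) ^ p := mul_le_mul_of_nonneg_left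
            (Real.rpow_le_rpow (hh j).1 (hh j).2 hp) hC
        _ ≤ (1 + C) * (2 * T) ^ p := by nlinarith
  have h2 : ((2 * T) ^ p) ^ 4 ≤ 2 * T ^ (4 * p) := by
    have e : ((2 * T) ^ p) ^ 4 = (2 * T) ^ (4 * p) := by
      rw [← Real.rpow_natCast ((2 * T) ^ p) 4, ← Real.rpow_mul (by linarith)]
      congr 1
      push_cast
      ring
    rw [e, Real.mul_rpow (by norm_num) hT0.le]
    have h3 : (2 : ℝ) ^ (4 * p) ≤ 2 := by
      calc (2 : ℝ) ^ (4 * p) ≤ 2 ^ (1 : ℝ) :=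
            Real.rpow_le_rpow_of_exponent_le (by norm_num) hp4
        _ = 2 := Real.rpow_one 2
    exact mul_le_mul_of_nonneg_right h3 (Real.rpow_nonneg hT0.le _)
  have hm1 : (1 : ℝ) ≤ m := by exact_mod_cast hm
  have h4 : (m : ℝ) ^ (x - 1 / 2) ≤ T ^ (7 / 8 * q) := by
    calc (m : ℝ) ^ (x - 1 / 2) ≤ (m : ℝ) ^ q := Real.rpow_le_rpow_of_exponent_le hm1 hxq
      _ ≤ (T ^ (7 / 8 : ℝ)) ^ q := Real.rpow_le_rpow (by linarith) hmT hq
      _ = T ^ (7 / 8 * q) := by rw [← Real.rpow_mul hT0.le]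
  calc (∏ j, ‖riemannZeta (x + I * ((h + α j : ℝ) : ℂ))‖) * (m : ℝ) ^ (x - 1 / 2)
      ≤ ((1 + C) * (2 * T) ^ p) ^ 4 * T ^ (7 / 8 * q) := by
        refine mul_le_mul h1 h4 (by positivity) (by positivity)
    _ = (1 + C) ^ 4 * ((2 * T) ^ p) ^ 4 * T ^ (7 / 8 * q) := by rw [mul_pow]
    _ ≤ (1 + C) ^ 4 * (2 * T ^ (4 * p)) * T ^ (7 / 8 * q) := by gcongr
    _ = 2 * (1 + C) ^ 4 * T ^ (4 * p + 7 / 8 * q) := by
        rw [Real.rpow_add hT0]
        ring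
    _ ≤ 2 * (1 + C) ^ 4 * T ^ (9 / 10 : ℝ) := by
        have := Real.rpow_le_rpow_of_exponent_le hT hpq
        gcongr

/-- zeta is bounded on vertical lines to the right of `1` -/
lemma zeta_bdd {η : ℝ} (hη : 0 < η) : ∃ Z : ℝ, 1 ≤ Z ∧ ∀ s : ℂ, s.re = 1 + η →
    ‖riemannZeta s‖ ≤ Z := by
  refine ⟨1 + ∑' n : ℕ, 1 / ((n : ℝ) + 1) ^ (1 + η), ?_, ?_⟩
  · have : 0 ≤ ∑' n : ℕ, 1 / ((n : ℝ) + 1) ^ (1 + η) := tsum_nonneg fun n => by positivity
    linarith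
  · intro s hs
    have hsum : Summable fun n : ℕ => 1 / ((n : ℝ) + 1) ^ (1 + η) := by
      have h1 := (Real.summable_one_div_nat_rpow (p := 1 + η)).2 (by linarith)
      have h2 := (summable_nat_add_iff 1).2 h1
      refine h2.congr fun n => ?_
      push_cast
      rfl
    rw [zeta_eq_tsum_one_div_nat_add_one_cpow (by rw [hs]; linarith)]
    have hn : ∀ n : ℕ, ‖1 / ((n : ℂ) + 1) ^ s‖ = 1 / ((n : ℝ) + 1) ^ (1 + η) := by
      intro n
      have e : ((n : ℂ) + 1) = ((n + 1 : ℕ) : ℂ) := by push_cast; rfl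
      rw [norm_div, norm_one, e, Complex.norm_natCast_cpow_of_pos (by omega), hs]
      push_cast
      rfl
    calc ‖∑' n : ℕ, 1 / ((n : ℂ) + 1) ^ s‖ ≤ ∑' n : ℕ, ‖1 / ((n : ℂ) + 1) ^ s‖ :=
          norm_tsum_le_tsum_norm (by simp_rw [hn]; exact hsum)
      _ = ∑' n : ℕ, 1 / ((n : ℝ) + 1) ^ (1 + η) := tsum_congr hn
      _ ≤ 1 + ∑' n : ℕ, 1 / ((n : ℝ) + 1) ^ (1 + η) := by linarith

lemma Fm_diff' (α : Fin k → ℝ) {m : ℕ} (hm : 1 ≤ m) {s : ℂ} (hs : s.re ≠ 1) :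
    DifferentiableAt ℂ (Fm α m) s := by
  unfold Fm
  have hm0 : (m : ℂ) ≠ 0 := by exact_mod_cast (by omega : m ≠ 0)
  refine DifferentiableAt.mul ?_ ?_
  · refine DifferentiableAt.fun_finsetProd fun j _ => ?_
    have h1 : DifferentiableAt ℂ riemannZeta (s + I * (α j : ℂ)) := by
      refine differentiableAt_riemannZeta ?_
      intro h
      have := congrArg Complex.re h
      simp at this
      exact hs this
    exact h1.comp s (by fun_prop)
  · exact DifferentiableAt.const_cpow (by fun_prop) (Or.inl hm0)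

lemma Fm_cont (α : Fin k → ℝ) {m : ℕ} (hm : 1 ≤ m) {x : ℝ} (hx : x ≠ 1) :
    Continuous fun t : ℝ => Fm α m ((x : ℂ) + t * I) := by
  rw [continuous_iff_continuousAt]
  intro t
  have h1 : ContinuousAt (Fm α m) ((x : ℂ) + t * I) :=
    (Fm_diff' α hm (by simpa using hx)).continuousAt
  have h2 : ContinuousAt (fun t : ℝ => (x : ℂ) + t * I) t := by fun_prop
  exact ContinuousAt.comp (f := fun t : ℝ => (x : ℂ) + t * I) (g := Fm α m) h1 h2

lemma m_rpow {m : ℕ} {T q r : ℝ} (hT : 1 ≤ T) (hq : 0 ≤ q)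
    (hmT : (m : ℝ) ≤ T ^ (7 / 8 : ℝ)) (hqr : 7 / 8 * q ≤ r) : (m : ℝ) ^ q ≤ T ^ r := by
  have hT0 : 0 < T := by linarith
  calc (m : ℝ) ^ q ≤ (T ^ (7 / 8 : ℝ)) ^ q := Real.rpow_le_rpow (by positivity) hmT hq
    _ = T ^ (7 / 8 * q) := by rw [← Real.rpow_mul hT0.le]
    _ ≤ T ^ r := Real.rpow_le_rpow_of_exponent_le hT hqr

theorem t_TW (hST : S_ST) (hDS : S_DS) : S_TW := by
  intro k α hk
  obtain ⟨C1, T1, hC1, hT1, hst⟩ := hST (1 / 100) (by norm_num)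
  obtain ⟨C2, hC2, hds⟩ := hDS k (1 / 100) (by norm_num) (by norm_num)
  obtain ⟨Z, hZ1, hZ⟩ := zeta_bdd (η := 1 / 100) (by norm_num)
  obtain ⟨A, hA0, hA⟩ : ∃ A : ℝ, 0 ≤ A ∧ ∀ j, |α j| ≤ A :=
    ⟨∑ j, |α j|, Finset.sum_nonneg fun j _ => abs_nonneg _,
      fun j => Finset.single_le_sum (f := fun j => |α j|) (fun j _ => abs_nonneg _)
        (Finset.mem_univ j)⟩
  have hzc : Continuous z := by
    have h1 : Continuous fun t : ℝ => Fm (fun _ : Fin 1 => (0 : ℝ)) 1 (((1 / 2 : ℝ) : ℂ) + t * I) :=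
      Fm_cont _ le_rfl (by norm_num)
    refine h1.congr fun t => ?_
    rw [Fm_half]
    simp [AA]
  obtain ⟨M0, hM0⟩ := (isCompact_Icc (a := -A) (b := T1)).exists_bound_of_continuousOn
    hzc.continuousOn
  obtain ⟨K, hK⟩ : ∃ K : ℝ, K = |M0| + C1 + 1 := ⟨_, rfl⟩
  have hK1 : 1 ≤ K := by
    rw [hK]
    have := abs_nonneg M0
    linarith
  refine ⟨16 * K ^ 4 + 4 * (1 + C1) ^ 4 + Z ^ 4 + C2, (2 * (A + T1 + 1)) ^ 10, by positivity,
    ?_, ?_⟩
  · calc (2 : ℝ) ≤ 2 ^ 10 := by norm_num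
      _ ≤ (2 * (A + T1 + 1)) ^ 10 := pow_le_pow_left₀ (by norm_num) (by linarith) 10
  intro T S m hT hS0 hST' hm hmT
  have hT1' : 1 ≤ T := by
    calc (1 : ℝ) ≤ 2 ^ 10 := by norm_num
      _ ≤ (2 * (A + T1 + 1)) ^ 10 := pow_le_pow_left₀ (by norm_num) (by linarith) 10
      _ ≤ T := hT
  have hT0 : 0 < T := by linarith
  obtain ⟨a, ha⟩ : ∃ a : ℝ, a = T ^ (1 / 10 : ℝ) := ⟨_, rfl⟩
  have ha0 : 0 ≤ a := by
    rw [ha]
    positivity
  have ha10 : a ^ 10 = T := by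
    rw [ha, ← Real.rpow_natCast, ← Real.rpow_mul hT0.le]
    norm_num
  have haA : 2 * (A + T1 + 1) ≤ a := by
    by_contra hcon
    push Not at hcon
    have := pow_lt_pow_left₀ hcon ha0 (n := 10) (by norm_num)
    linarith
  have haT : a ≤ T := by
    rw [ha]
    calc T ^ (1 / 10 : ℝ) ≤ T ^ (1 : ℝ) := Real.rpow_le_rpow_of_exponent_le hT1' (by norm_num)
      _ = T := Real.rpow_one T
  have ha5 : a ^ 5 ≤ T ^ (9 / 10 : ℝ) := by
    rw [ha, ← Real.rpow_natCast, ← Real.rpow_mul hT0.le]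
    exact Real.rpow_le_rpow_of_exponent_le hT1' (by norm_num)
  have hm1 : (1 : ℝ) ≤ m := by exact_mod_cast hm
  obtain ⟨c, hc⟩ : ∃ c : ℝ, c = min a S := ⟨_, rfl⟩
  have hc0 : 0 ≤ c := by
    rw [hc]
    exact le_min ha0 hS0
  have hca : c ≤ a := by
    rw [hc]
    exact min_le_left _ _
  have hcS : c ≤ S := by
    rw [hc]
    exact min_le_right _ _
  have hP : Continuous fun t : ℝ => Fm α m (((1 / 2 : ℝ) : ℂ) + t * I) :=
    Fm_cont α hm (by norm_num)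
  have hG : Continuous fun t : ℝ => Fm α m (((1 + 1 / 100 : ℝ) : ℂ) + t * I) :=
    Fm_cont α hm (by norm_num)
  have hcI : cI α S m = ∫ t in (0 : ℝ)..S, Fm α m (((1 / 2 : ℝ) : ℂ) + t * I) := by
    unfold cI
    exact intervalIntegral.integral_congr fun t _ => (Fm_half α m t).symm
  -- the first part
  have E1 : ‖∫ t in (0 : ℝ)..c, Fm α m (((1 / 2 : ℝ) : ℂ) + t * I)‖ ≤
      16 * K ^ 4 * T ^ (9 / 10 : ℝ) := by
    have h1 := intervalIntegral.norm_integral_le_of_norm_le_const (a := (0 : ℝ)) (b := c)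
      (f := fun t : ℝ => Fm α m (((1 / 2 : ℝ) : ℂ) + t * I)) (C := (K * (2 * a)) ^ 4)
      (fun t ht => by
        rw [uIoc_of_le hc0] at ht
        rw [Fm_norm α hm, sub_self, Real.rpow_zero, mul_one]
        refine prod_le hk (fun j => norm_nonneg _) (by nlinarith) fun j => ?_
        have hj := abs_le.1 (hA j)
        have hzz : riemannZeta (((1 / 2 : ℝ) : ℂ) + I * ((t + α j : ℝ) : ℂ)) = z (t + α j) := by
          unfold z
          congr 1
          push_cast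
          ring
        rcases le_or_gt (t + α j) T1 with h2 | h2
        · rw [hzz]
          calc ‖z (t + α j)‖ ≤ M0 := hM0 _ ⟨by linarith [ht.1], h2⟩
            _ ≤ |M0| := le_abs_self _
            _ ≤ K * (2 * a) := by
              have h3 := abs_nonneg M0
              nlinarith
        · have h3 := (hst (1 / 2) (t + α j) h2.le (by norm_num)).1 le_rfl
          have h4 : (t + α j) ^ (1 / 6 + 1 / 100 : ℝ) ≤ t + α j := by
            calc (t + α j) ^ (1 / 6 + 1 / 100 : ℝ) ≤ (t + α j) ^ (1 : ℝ) :=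
                  Real.rpow_le_rpow_of_exponent_le (by linarith) (by norm_num)
              _ = t + α j := Real.rpow_one _
          have h5 : t + α j ≤ 2 * a := by linarith [ht.2]
          calc ‖riemannZeta (((1 / 2 : ℝ) : ℂ) + I * ((t + α j : ℝ) : ℂ))‖
              ≤ C1 * (t + α j) ^ (1 / 6 + 1 / 100 : ℝ) := h3
            _ ≤ C1 * (2 * a) := mul_le_mul_of_nonneg_left (h4.trans h5) hC1.le
            _ ≤ K * (2 * a) := by
              have h6 := abs_nonneg M0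
              nlinarith)
    rw [sub_zero, abs_of_nonneg hc0] at h1
    calc ‖∫ t in (0 : ℝ)..c, Fm α m (((1 / 2 : ℝ) : ℂ) + t * I)‖ ≤ (K * (2 * a)) ^ 4 * c := h1
      _ ≤ (K * (2 * a)) ^ 4 * a := by gcongr
      _ = 16 * K ^ 4 * a ^ 5 := by ring
      _ ≤ 16 * K ^ 4 * T ^ (9 / 10 : ℝ) := by gcongr
  -- the contour shift
  have E2 : ‖(∫ t in c..S, Fm α m (((1 / 2 : ℝ) : ℂ) + t * I)) -
      ∫ t in c..S, Fm α m (((1 + 1 / 100 : ℝ) : ℂ) + t * I)‖ ≤
      4 * (1 + C1) ^ 4 * T ^ (9 / 10 : ℝ) := by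
    rcases le_or_gt S a with h | h
    · have h1 : c = S := by rw [hc, min_eq_right h]
      rw [h1, intervalIntegral.integral_same, intervalIntegral.integral_same, sub_zero, norm_zero]
      positivity
    · have h1 : c = a := by rw [hc, min_eq_left h.le]
      rw [h1]
      have hj : ∀ j, -A ≤ α j ∧ α j ≤ A := fun j => abs_le.1 (hA j)
      have h2 := shift α hm (η := 1 / 100) (a := a) (S := S)
        (B := 2 * (1 + C1) ^ 4 * T ^ (9 / 10 : ℝ)) (by norm_num) h.le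
        (fun j => by linarith [(hj j).1]) (fun x y hx1 hx2 hy => by
          have hy1 : a ≤ y := by
            rcases hy with hy | hy
            · exact hy.ge
            · rw [hy]
              exact h.le
          have hy2 : y ≤ T := by
            rcases hy with hy | hy
            · rw [hy]
              exact haT
            · rw [hy]
              exact hST'
          have hh : ∀ j, 0 ≤ y + α j ∧ y + α j ≤ 2 * T := fun j =>
            ⟨by linarith [(hj j).1], by linarith [(hj j).2]⟩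
          have hT1y : ∀ j, T1 ≤ y + α j := fun j => by linarith [(hj j).1]
          rcases le_or_gt x (5 / 7) with hx | hx
          · exact side α hk hm (p := 1 / 6 + 1 / 100) (q := 3 / 14) hT1' hC1.le (by norm_num)
              (by norm_num) (by norm_num) hmT (by norm_num) (by linarith)
              (fun j => (hst x (y + α j) (hT1y j) (by linarith)).1 hx1) hh
          · exact side α hk hm (p := 1 / 14 + 1 / 100) (q := 1 / 2 + 1 / 100) hT1' hC1.le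
              (by norm_num) (by norm_num) (by norm_num) hmT (by norm_num) (by linarith)
              (fun j => (hst x (y + α j) (hT1y j) (by linarith)).2 hx.le) hh)
      have h3 : 0 ≤ (1 + C1) ^ 4 * T ^ (9 / 10 : ℝ) := by positivity
      calc _ ≤ 2 * (1 / 2 + 1 / 100) * (2 * (1 + C1) ^ 4 * T ^ (9 / 10 : ℝ)) := h2
        _ ≤ 4 * (1 + C1) ^ 4 * T ^ (9 / 10 : ℝ) := by nlinarith
  -- the beginning of the other line
  have E3 : ‖∫ t in (0 : ℝ)..c, Fm α m (((1 + 1 / 100 : ℝ) : ℂ) + t * I)‖ ≤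
      Z ^ 4 * T ^ (9 / 10 : ℝ) := by
    have h1 := intervalIntegral.norm_integral_le_of_norm_le_const (a := (0 : ℝ)) (b := c)
      (f := fun t : ℝ => Fm α m (((1 + 1 / 100 : ℝ) : ℂ) + t * I))
      (C := Z ^ 4 * T ^ (8 / 10 : ℝ))
      (fun t _ => by
        rw [Fm_norm α hm]
        refine mul_le_mul (prod_le hk (fun j => norm_nonneg _) hZ1 fun j => ?_)
          (m_rpow hT1' (by norm_num) hmT (by norm_num)) (by positivity) (by positivity)
        exact hZ _ (by simp))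
    rw [sub_zero, abs_of_nonneg hc0] at h1
    calc ‖∫ t in (0 : ℝ)..c, Fm α m (((1 + 1 / 100 : ℝ) : ℂ) + t * I)‖
        ≤ Z ^ 4 * T ^ (8 / 10 : ℝ) * c := h1
      _ ≤ Z ^ 4 * T ^ (8 / 10 : ℝ) * a := by gcongr
      _ = Z ^ 4 * T ^ (9 / 10 : ℝ) := by
        rw [ha, mul_assoc, ← Real.rpow_add hT0]
        norm_num
  -- the main term
  have E4 : ‖(∫ t in (0 : ℝ)..S, Fm α m (((1 + 1 / 100 : ℝ) : ℂ) + t * I)) -
      S * (tau (fun j => -(I * (α j : ℂ))) m * (m : ℂ) ^ (-(1 / 2) : ℂ))‖ ≤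
      C2 * T ^ (9 / 10 : ℝ) := by
    have h1 := hds α 0 S m hS0 hm
    have h2 : (∫ t in (0 : ℝ)..S, Fm α m (((1 + 1 / 100 : ℝ) : ℂ) + t * I)) =
        ∫ t in (0 : ℝ)..S, (∏ j, riemannZeta (1 + ((1 / 100 : ℝ) : ℂ) + I * (t + α j))) *
          (m : ℂ) ^ (1 / 2 + ((1 / 100 : ℝ) : ℂ) + I * t : ℂ) :=
      intervalIntegral.integral_congr fun t _ => Fm_right α m (1 / 100) t
    rw [h2]
    calc _ ≤ C2 * (m : ℝ) ^ (1 / 2 + 2 * (1 / 100) : ℝ) := by
          simpa using h1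
      _ ≤ C2 * T ^ (9 / 10 : ℝ) := mul_le_mul_of_nonneg_left
          (m_rpow hT1' (by norm_num) hmT (by norm_num)) hC2.le
  rw [hcI]
  have e1 := intervalIntegral.integral_add_adjacent_intervals (hP.intervalIntegrable 0 c)
    (hP.intervalIntegrable (μ := volume) c S)
  have e2 := intervalIntegral.integral_add_adjacent_intervals (hG.intervalIntegrable 0 c)
    (hG.intervalIntegrable (μ := volume) c S)
  rw [← e1]
  rw [← e2] at E4
  generalize (∫ t in (0 : ℝ)..c, Fm α m (((1 / 2 : ℝ) : ℂ) + t * I)) = P1 at E1 ⊢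
  generalize (∫ t in c..S, Fm α m (((1 / 2 : ℝ) : ℂ) + t * I)) = P2 at E2 ⊢
  generalize (∫ t in (0 : ℝ)..c, Fm α m (((1 + 1 / 100 : ℝ) : ℂ) + t * I)) = G1 at E3 E4
  generalize (∫ t in c..S, Fm α m (((1 + 1 / 100 : ℝ) : ℂ) + t * I)) = G2 at E2 E4
  generalize (S * (tau (fun j => -(I * (α j : ℂ))) m * (m : ℂ) ^ (-(1 / 2) : ℂ)) : ℂ) = X at E4 ⊢
  calc ‖P1 + P2 - X‖ = ‖P1 + (P2 - G2) - G1 + (G1 + G2 - X)‖ := by
        congr 1
        ring
    _ ≤ ‖P1 + (P2 - G2) - G1‖ + ‖G1 + G2 - X‖ := norm_add_le _ _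
    _ ≤ ‖P1 + (P2 - G2)‖ + ‖G1‖ + ‖G1 + G2 - X‖ := by gcongr; exact norm_sub_le _ _
    _ ≤ ‖P1‖ + ‖P2 - G2‖ + ‖G1‖ + ‖G1 + G2 - X‖ := by gcongr; exact norm_add_le _ _
    _ ≤ (16 * K ^ 4 + 4 * (1 + C1) ^ 4 + Z ^ 4 + C2) * T ^ (9 / 10 : ℝ) := by linarith

end

end Pool.Agent.TH914.GF
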